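import Mathlib

set_option autoImplicit false
open Set Filter Topology MeasureTheory

/-!
# Cegrell classes on bounded hyperconvex domains of `ℂⁿ`

`ℂⁿ` is written as `Fin n → ℂ`; plurisubharmonic functions have values in `[-∞, ∞)`.
-/

namespace Pool.Agent.H914R3.CG

variable {n : ℕ}

/-- `u` is plurisubharmonic on the open set `Ω`: it is upper semicontinuous, it does not take the
value `+∞`, and on every closed disc `{z + ζ v : |ζ| ≤ 1} ⊆ Ω` its value at the centre is at most the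
mean over the circle of every continuous function which is `≥ u` on the circle (for upper
semicontinuous `u` the infimum of these means is the mean of `u`). -/
def IsPSH (Ω : Set (Fin n → ℂ)) (u : (Fin n → ℂ) → EReal) : Prop :=
  (∀ z ∈ Ω, u z < ⊤) ∧ UpperSemicontinuousOn u Ω ∧
  ∀ z v : Fin n → ℂ, (∀ ζ : ℂ, ‖ζ‖ ≤ 1 → z + ζ • v ∈ Ω) →
    ∀ g : ℂ → ℝ, ContinuousOn g (Metric.sphere 0 1) →
      (∀ ζ : ℂ, ‖ζ‖ = 1 → u (z + ζ • v) ≤ ((g ζ : ℝ) : EReal)) →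
      u z ≤ ((Real.circleAverage g 0 1 : ℝ) : EReal)

/-- Negative plurisubharmonic functions on `Ω`. -/
def IsNegPSH (Ω : Set (Fin n → ℂ)) (u : (Fin n → ℂ) → EReal) : Prop :=
  IsPSH Ω u ∧ ∀ z ∈ Ω, u z ≤ 0

/-- `Ω` is a bounded hyperconvex domain: open, connected, nonempty, bounded, with a negative
continuous plurisubharmonic exhaustion function. -/
def IsHyperconvex (Ω : Set (Fin n → ℂ)) : Prop :=
  IsOpen Ω ∧ IsConnected Ω ∧ Bornology.IsBounded Ω ∧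
  ∃ ρ : (Fin n → ℂ) → ℝ, ContinuousOn ρ Ω ∧ IsPSH Ω (fun z => (ρ z : EReal)) ∧
    (∀ z ∈ Ω, ρ z < 0) ∧
    ∀ c : ℝ, c < 0 → ∃ K : Set (Fin n → ℂ), IsCompact K ∧ K ⊆ Ω ∧ ∀ z ∈ Ω, ρ z ≤ c → z ∈ K

/-- The second derivative `D²f(z)(v, w)` of a function on `ℂⁿ = ℝ²ⁿ`. -/
noncomputable def D2 (f : (Fin n → ℂ) → ℝ) (z v w : Fin n → ℂ) : ℝ :=
  fderiv ℝ (fderiv ℝ f) z v w

/-- The complex Hessian `∂²f / ∂z_j ∂z̄_k`. -/
noncomputable def hess (f : (Fin n → ℂ) → ℝ) (z : Fin n → ℂ) : Matrix (Fin n) (Fin n) ℂ :=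
  Matrix.of fun j k =>
    (((D2 f z (Pi.single j 1) (Pi.single k 1) +
        D2 f z (Pi.single j Complex.I) (Pi.single k Complex.I) : ℝ) : ℂ) +
      Complex.I * ((D2 f z (Pi.single j 1) (Pi.single k Complex.I) -
        D2 f z (Pi.single j Complex.I) (Pi.single k 1) : ℝ) : ℂ)) / 4

/-- The density of the Monge-Ampère measure `(dd^c f)ⁿ` of a function of class `C²`, up to a
constant factor which depends only on `n`: the determinant of the complex Hessian. -/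
noncomputable def MA (f : (Fin n → ℂ) → ℝ) (z : Fin n → ℂ) : ℝ := (hess f z).det.re

/-- The Monge-Ampère mass of the bounded plurisubharmonic function `φ` on `Ω` is at most `C`, up to a
constant factor: on open sets `V k` increasing to `Ω` there are plurisubharmonic functions `f k` of
class `C²`, decreasing to `φ`, whose Monge-Ampère masses on `V k` are at most `C` (Bedford and
Taylor: the Monge-Ampère measures of such functions converge weakly to that of `φ`). -/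
def MassLE (Ω : Set (Fin n → ℂ)) (φ : (Fin n → ℂ) → ℝ) (C : ℝ) : Prop :=
  ∃ (V : ℕ → Set (Fin n → ℂ)) (f : ℕ → (Fin n → ℂ) → ℝ), Monotone V ∧ (⋃ k, V k) = Ω ∧
    (∀ k, IsOpen (V k) ∧ ContDiffOn ℝ 2 (f k) (V k) ∧
      IsPSH (V k) (fun z => (f k z : EReal)) ∧ (∀ z ∈ V k, f (k + 1) z ≤ f k z) ∧
      ∫⁻ z in V k, ENNReal.ofReal (MA (f k) z) ≤ ENNReal.ofReal C) ∧
    ∀ z ∈ Ω, Tendsto (fun k => f k z) atTop (𝓝 (φ z))

/-- The class `𝓔₀(Ω)`: bounded negative plurisubharmonic functions which tend to `0` at the boundary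
and have finite Monge-Ampère mass. -/
def IsE0 (Ω : Set (Fin n → ℂ)) (φ : (Fin n → ℂ) → ℝ) : Prop :=
  IsNegPSH Ω (fun z => (φ z : EReal)) ∧ (∃ B : ℝ, ∀ z ∈ Ω, -B ≤ φ z) ∧
  (∀ ε : ℝ, 0 < ε → ∃ K : Set (Fin n → ℂ), IsCompact K ∧ K ⊆ Ω ∧ ∀ z ∈ Ω \ K, -ε < φ z) ∧
  ∃ C : ℝ, MassLE Ω φ C

/-- The class `𝓔(Ω)`: negative plurisubharmonic functions `u` such that every point has a
neighbourhood `U` on which `u` is the decreasing limit of a sequence in `𝓔₀(Ω)` with bounded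
Monge-Ampère masses on `Ω`. -/
def IsE (Ω : Set (Fin n → ℂ)) (u : (Fin n → ℂ) → EReal) : Prop :=
  IsNegPSH Ω u ∧ ∀ z ∈ Ω, ∃ U : Set (Fin n → ℂ), IsOpen U ∧ z ∈ U ∧ U ⊆ Ω ∧
    ∃ (φ : ℕ → (Fin n → ℂ) → ℝ) (C : ℝ), (∀ j, IsE0 Ω (φ j) ∧ MassLE Ω (φ j) C) ∧
      ∀ w ∈ U, Antitone (fun j => φ j w) ∧
        Tendsto (fun j => ((φ j w : ℝ) : EReal)) atTop (𝓝 (u w))

/-- `sup {ψ plurisubharmonic on Ω : ψ ≤ u on Ω \ K}`, the function `u^j` for `K = Ω_j`. -/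
noncomputable def envelope (Ω : Set (Fin n → ℂ)) (u : (Fin n → ℂ) → EReal)
    (K : Set (Fin n → ℂ)) (z : Fin n → ℂ) : EReal :=
  ⨆ ψ ∈ {ψ : (Fin n → ℂ) → EReal | IsPSH Ω ψ ∧ ∀ w ∈ Ω \ K, ψ w ≤ u w}, ψ z

/-- The smallest maximal plurisubharmonic majorant `ũ = (lim_j u^j)^*`: the upper semicontinuous
regularisation of the supremum over all compact sets `K ⊆ Ω` of the functions `envelope Ω u K` (they
increase with `K`, so this is the limit along every exhaustion). -/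
noncomputable def tilde (Ω : Set (Fin n → ℂ)) (u : (Fin n → ℂ) → EReal) (z : Fin n → ℂ) : EReal :=
  ⨅ s ∈ 𝓝 z, ⨆ w ∈ s ∩ Ω, ⨆ K ∈ {K : Set (Fin n → ℂ) | IsCompact K ∧ K ⊆ Ω}, envelope Ω u K w

/-- The class `𝓝(Ω)`: the functions `u` in `𝓔(Ω)` with `ũ = 0`. -/
def IsN (Ω : Set (Fin n → ℂ)) (u : (Fin n → ℂ) → EReal) : Prop :=
  IsE Ω u ∧ ∀ z ∈ Ω, tilde Ω u z = 0

end Pool.Agent.H914R3.CG
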