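import Mathlib
import Pool.Agent.H914R3.CG.Defs

set_option autoImplicit false
open Set Filter Topology MeasureTheory

namespace Pool.Agent.H914R3.CG

variable {n : ℕ}

lemma sphere_iff {η : ℂ} : η ∈ Metric.sphere (0 : ℂ) 1 ↔ ‖η‖ = 1 := by simp

lemma circ_int {g : ℂ → ℝ} (hg : ContinuousOn g (Metric.sphere 0 1)) : CircleIntegrable g 0 1 :=
  ContinuousOn.circleIntegrable zero_le_one hg

/-- the mean of `log |c + δ η|` -/
lemma avg_log {c δ : ℂ} (h : ∀ η : ℂ, ‖η‖ ≤ 1 → c + η * δ ≠ 0) :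
    Real.circleAverage (fun η => Real.log ‖c + η * δ‖) 0 1 = Real.log ‖c‖ := by
  have := AnalyticOnNhd.circleAverage_log_norm_of_ne_zero (R := 1) (c := (0 : ℂ))
    (g := fun η => c + η * δ) (fun η _ => by fun_prop) (fun η hη => h η (by simpa using hη))
  simpa using this

/-- the mean of `(Re (c + δ η))²` for real `δ` -/
lemma avg_sq (c : ℂ) (δ : ℝ) :
    Real.circleAverage (fun η => (c + η * (δ : ℂ)).re ^ 2) 0 1 = c.re ^ 2 + δ ^ 2 / 2 := by
  rw [Real.circleAverage_def]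
  have h1 : ∀ θ : ℝ, (c + circleMap 0 1 θ * (δ : ℂ)).re ^ 2 =
      c.re ^ 2 + 2 * c.re * δ * Real.cos θ + δ ^ 2 * Real.cos θ ^ 2 := by
    intro θ
    have : (circleMap 0 1 θ * (δ : ℂ)).re = Real.cos θ * δ := by
      rw [circleMap]
      simp [Complex.exp_ofReal_mul_I_re, Complex.exp_ofReal_mul_I_im]
    rw [Complex.add_re, this]
    ring
  simp only [h1]
  have i1 : IntervalIntegrable (fun θ : ℝ => c.re ^ 2 + 2 * c.re * δ * Real.cos θ) volume 0
      (2 * Real.pi) := (by fun_prop : Continuous _).intervalIntegrable _ _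
  have i2 : IntervalIntegrable (fun θ : ℝ => δ ^ 2 * Real.cos θ ^ 2) volume 0
      (2 * Real.pi) := (by fun_prop : Continuous _).intervalIntegrable _ _
  have i3 : IntervalIntegrable (fun _ : ℝ => c.re ^ 2) volume 0
      (2 * Real.pi) := (by fun_prop : Continuous _).intervalIntegrable _ _
  have i4 : IntervalIntegrable (fun θ : ℝ => 2 * c.re * δ * Real.cos θ) volume 0
      (2 * Real.pi) := (by fun_prop : Continuous _).intervalIntegrable _ _
  rw [intervalIntegral.integral_add i1 i2, intervalIntegral.integral_add i3 i4,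
    intervalIntegral.integral_const_mul, intervalIntegral.integral_const_mul, integral_cos,
    integral_cos_sq]
  simp
  have := Real.pi_ne_zero
  field_simp

/-- two constants theorem on an annulus, in the direction of the vector `e` -/
theorem annulus {Ω : Set (Fin n → ℂ)} {s : (Fin n → ℂ) → EReal} (hs : IsPSH Ω s)
    (p e : Fin n → ℂ) {a b α β : ℝ} (ha : 0 < a) (hab : a < b)
    (hmem : ∀ ζ : ℂ, a ≤ ‖ζ‖ → ‖ζ‖ ≤ b → p + ζ • e ∈ Ω)
    (h1 : ∀ ζ : ℂ, ‖ζ‖ = a → s (p + ζ • e) ≤ ((α : ℝ) : EReal))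
    (h2 : ∀ ζ : ℂ, ‖ζ‖ = b → s (p + ζ • e) ≤ ((β : ℝ) : EReal)) :
    ∀ ζ : ℂ, a ≤ ‖ζ‖ → ‖ζ‖ ≤ b → s (p + ζ • e) ≤
      ((α + (β - α) / (Real.log b - Real.log a) * (Real.log ‖ζ‖ - Real.log a) : ℝ) : EReal) := by
  intro ζ₁ hζa hζb
  set m := (β - α) / (Real.log b - Real.log a) with hm
  have hlog : 0 < Real.log b - Real.log a := sub_pos.2 (Real.log_lt_log ha hab)
  by_contra hcon
  push Not at hcon
  set h : ℂ → ℝ := fun ζ => α + m * (Real.log ‖ζ‖ - Real.log a) with hh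
  change ((h ζ₁ : ℝ) : EReal) < s (p + ζ₁ • e) at hcon
  obtain ⟨c, hc1, hc2⟩ := EReal.exists_between_coe_real hcon
  have hc1' : h ζ₁ < c := by exact_mod_cast hc1
  have hb : 0 < b := ha.trans hab
  set ε : ℝ := (c - h ζ₁) / (b ^ 2 + 1) with hε
  have hε0 : 0 < ε := div_pos (by linarith) (by positivity)
  set h' : ℂ → ℝ := fun ζ => h ζ + ε * (b ^ 2 - ζ.re ^ 2) with hh'
  have hre : ∀ ζ : ℂ, ‖ζ‖ ≤ b → ζ.re ^ 2 ≤ b ^ 2 := by
    intro ζ hζ
    have := Complex.abs_re_le_norm ζ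
    nlinarith [abs_nonneg ζ.re, sq_abs ζ.re]
  have hζ1 : h' ζ₁ < c := by
    have e1 : ε * (b ^ 2 + 1) = c - h ζ₁ := by rw [hε]; field_simp
    have e2 : ε * (b ^ 2 - ζ₁.re ^ 2) ≤ ε * b ^ 2 := by nlinarith [sq_nonneg ζ₁.re]
    simp only [hh']
    nlinarith
  -- the annulus
  set S : Set ℂ := {ζ | a ≤ ‖ζ‖ ∧ ‖ζ‖ ≤ b} with hS
  have hSc : IsCompact S := by
    apply Metric.isCompact_of_isClosed_isBounded
    · exact (isClosed_le continuous_const continuous_norm).inter
        (isClosed_le continuous_norm continuous_const)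
    · exact (Metric.isBounded_closedBall (x := (0 : ℂ)) (r := b)).subset
        (fun ζ hζ => by simpa using hζ.2)
  have hcont : ∀ ζ ∈ S, ContinuousAt h' ζ := by
    intro ζ hζ
    have : ‖ζ‖ ≠ 0 := (ha.trans_le hζ.1).ne'
    have hl : ContinuousAt (fun ζ : ℂ => Real.log ‖ζ‖) ζ :=
      (Real.continuousAt_log this).comp continuous_norm.continuousAt
    simp only [hh', hh]
    have hre : ContinuousAt (fun ζ : ℂ => ζ.re) ζ := Complex.continuous_re.continuousAt
    fun_prop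
  set T : ℂ → EReal := fun ζ => s (p + ζ • e) + ((-(h' ζ) : ℝ) : EReal) with hT
  have hline : Continuous (fun ζ : ℂ => p + ζ • e) := by fun_prop
  have husc : UpperSemicontinuousOn T S := by
    have u1 : UpperSemicontinuousOn (fun ζ : ℂ => s (p + ζ • e)) S := by
      intro ζ hζ y hy
      have := hs.2.1 _ (hmem ζ hζ.1 hζ.2) y hy
      have ht : Tendsto (fun ζ : ℂ => p + ζ • e) (𝓝[S] ζ) (𝓝[Ω] (p + ζ • e)) :=
        tendsto_nhdsWithin_of_tendsto_nhds_of_eventually_within _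
          (hline.tendsto ζ |>.mono_left nhdsWithin_le_nhds)
          (eventually_nhdsWithin_of_forall fun η hη => hmem η hη.1 hη.2)
      exact ht.eventually this
    have u2 : UpperSemicontinuousOn (fun ζ : ℂ => ((-(h' ζ) : ℝ) : EReal)) S := by
      apply ContinuousOn.upperSemicontinuousOn
      intro ζ hζ
      exact (continuous_coe_real_ereal.continuousAt.comp (hcont ζ hζ).neg).continuousWithinAt
    refine u1.add' u2 ?_
    intro ζ hζ
    apply EReal.continuousAt_add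
    · right; exact EReal.coe_ne_bot _
    · right; exact EReal.coe_ne_top _
  obtain ⟨ζs, hζs, hmax⟩ := husc.exists_isMaxOn ⟨ζ₁, show ζ₁ ∈ S from ⟨hζa, hζb⟩⟩ hSc
  have hTpos : 0 < T ζs := by
    have hmem1 : ζ₁ ∈ S := ⟨hζa, hζb⟩
    refine lt_of_lt_of_le ?_ (isMaxOn_iff.1 hmax ζ₁ hmem1)
    have h3 : ((h' ζ₁ : ℝ) : EReal) < s (p + ζ₁ • e) :=
      lt_trans (by exact_mod_cast hζ1) hc2
    have hlt := hs.1 _ (hmem ζ₁ hζa hζb)
    have hnb : s (p + ζ₁ • e) ≠ ⊥ := fun hb => by rw [hb] at h3; exact not_lt_bot h3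
    lift s (p + ζ₁ • e) to ℝ using ⟨hlt.ne, hnb⟩ with x hx
    simp only [hT]
    rw [← hx]
    norm_cast
    have : h' ζ₁ < x := by exact_mod_cast h3
    linarith
  have hsreal : ∃ x : ℝ, s (p + ζs • e) = (x : EReal) := by
    have hlt := hs.1 _ (hmem ζs hζs.1 hζs.2)
    have hnb : s (p + ζs • e) ≠ ⊥ := fun hb => by
      simp only [hT, hb, EReal.bot_add] at hTpos
      exact not_lt_bot hTpos
    exact ⟨(s (p + ζs • e)).toReal, (EReal.coe_toReal hlt.ne hnb).symm⟩
  obtain ⟨x, hx⟩ := hsreal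
  have htx : 0 < x - h' ζs := by
    simp only [hT, hx] at hTpos
    have : (0 : ℝ) < x + -(h' ζs) := by exact_mod_cast hTpos
    linarith
  have hbound : ∀ ζ ∈ S, s (p + ζ • e) ≤ ((h' ζ + (x - h' ζs) : ℝ) : EReal) := by
    intro ζ hζ
    have h4 : T ζ ≤ T ζs := isMaxOn_iff.1 hmax ζ hζ
    simp only [hT, hx] at h4
    rcases eq_or_ne (s (p + ζ • e)) ⊥ with hb | hb
    · rw [hb]; exact bot_le
    · have hlt := hs.1 _ (hmem ζ hζ.1 hζ.2)
      lift s (p + ζ • e) to ℝ using ⟨hlt.ne, hb⟩ with y hy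
      have : y + -(h' ζ) ≤ x + -(h' ζs) := by exact_mod_cast h4
      exact_mod_cast (by linarith : y ≤ h' ζ + (x - h' ζs))
  -- interior
  have hna : a < ‖ζs‖ := by
    rcases hζs.1.lt_or_eq with h5 | h5
    · exact h5
    · exfalso
      have h6 := h1 ζs h5.symm
      rw [hx] at h6
      have h7 : x ≤ α := by exact_mod_cast h6
      have h8 : h' ζs = α + ε * (b ^ 2 - ζs.re ^ 2) := by
        simp only [hh', hh, ← h5]; ring
      have := hre ζs hζs.2
      nlinarith
  have hnb : ‖ζs‖ < b := by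
    rcases hζs.2.lt_or_eq with h5 | h5
    · exact h5
    · exfalso
      have h6 := h2 ζs h5
      rw [hx] at h6
      have h7 : x ≤ β := by exact_mod_cast h6
      have h8 : h' ζs = β + ε * (b ^ 2 - ζs.re ^ 2) := by
        simp only [hh', hh, h5, hm]
        field_simp
        ring
      have := hre ζs hζs.2
      nlinarith
  set δ : ℝ := min (‖ζs‖ - a) (b - ‖ζs‖) / 2 with hδ
  have hδ0 : 0 < δ := by
    have := lt_min (sub_pos.2 hna) (sub_pos.2 hnb)
    positivity
  have hδ1 : δ < ‖ζs‖ - a := by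
    have := min_le_left (‖ζs‖ - a) (b - ‖ζs‖)
    have h9 := sub_pos.2 hna
    rw [hδ]; linarith
  have hδ2 : δ < b - ‖ζs‖ := by
    have := min_le_right (‖ζs‖ - a) (b - ‖ζs‖)
    have h9 := sub_pos.2 hnb
    rw [hδ]; linarith
  have hin : ∀ η : ℂ, ‖η‖ ≤ 1 → a < ‖ζs + η * (δ : ℂ)‖ ∧ ‖ζs + η * (δ : ℂ)‖ < b := by
    intro η hη
    have h5 : ‖η * (δ : ℂ)‖ ≤ δ := by
      rw [norm_mul, Complex.norm_real, Real.norm_eq_abs, abs_of_pos hδ0]
      nlinarith
    have h6 := norm_add_le ζs (η * (δ : ℂ))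
    have h7 := norm_sub_le (ζs + η * (δ : ℂ)) (η * (δ : ℂ))
    rw [add_sub_cancel_right] at h7
    constructor <;> linarith
  have hpt : ∀ η : ℂ, p + ζs • e + η • ((δ : ℂ) • e) = p + (ζs + η * (δ : ℂ)) • e := by
    intro η
    rw [add_smul, mul_smul, add_assoc]
  have hsub := hs.2.2 (p + ζs • e) ((δ : ℂ) • e)
    (fun η hη => by
      rw [hpt]
      exact hmem _ (hin η hη).1.le (hin η hη).2.le)
    (fun η => h' (ζs + η * (δ : ℂ)) + (x - h' ζs))
    (by
      intro η hη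
      rw [sphere_iff] at hη
      have h5 := hin η hη.le
      have h6 : ContinuousAt h' (ζs + η * (δ : ℂ)) := hcont _ ⟨h5.1.le, h5.2.le⟩
      have h7 : ContinuousAt (fun η : ℂ => ζs + η * (δ : ℂ)) η := by fun_prop
      have h8 : ContinuousAt (fun η : ℂ => h' (ζs + η * (δ : ℂ))) η :=
        ContinuousAt.comp (f := fun η : ℂ => ζs + η * (δ : ℂ)) h6 h7
      exact (h8.add continuousAt_const).continuousWithinAt)
    (fun η hη => by
      rw [hpt]
      have h5 := hin η hη.le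
      exact hbound _ ⟨h5.1.le, h5.2.le⟩)
  rw [hx] at hsub
  have hsub' : x ≤ Real.circleAverage (fun η => h' (ζs + η * (δ : ℂ)) + (x - h' ζs)) 0 1 := by
    exact_mod_cast hsub
  have cl : ContinuousOn (fun η : ℂ => Real.log ‖ζs + η * (δ : ℂ)‖) (Metric.sphere 0 1) := by
    intro η hη
    rw [sphere_iff] at hη
    have h5 := hin η hη.le
    have h6 : ‖ζs + η * (δ : ℂ)‖ ≠ 0 := (ha.trans h5.1).ne'
    have h7 : ContinuousAt (fun η : ℂ => ‖ζs + η * (δ : ℂ)‖) η := by fun_prop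
    exact (ContinuousAt.log h7 h6).continuousWithinAt
  have cr : ContinuousOn (fun η : ℂ => (ζs + η * (δ : ℂ)).re ^ 2) (Metric.sphere 0 1) := by
    apply Continuous.continuousOn
    have : Continuous (fun η : ℂ => (ζs + η * (δ : ℂ)).re) :=
      Complex.continuous_re.comp (by fun_prop)
    exact this.pow 2
  have hform : (fun η => h' (ζs + η * (δ : ℂ)) + (x - h' ζs)) =
      fun η => (m * Real.log ‖ζs + η * (δ : ℂ)‖ + (-ε) * (ζs + η * (δ : ℂ)).re ^ 2) +
        (α - m * Real.log a + ε * b ^ 2 + (x - h' ζs)) := by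
    funext η
    simp only [hh', hh]
    ring
  have hav : Real.circleAverage (fun η => h' (ζs + η * (δ : ℂ)) + (x - h' ζs)) 0 1 =
      m * Real.log ‖ζs‖ + (-ε) * (ζs.re ^ 2 + δ ^ 2 / 2) +
        (α - m * Real.log a + ε * b ^ 2 + (x - h' ζs)) := by
    rw [hform, Real.circleAverage_fun_add, Real.circleAverage_fun_add, Real.circleAverage_const]
    · have e1 : Real.circleAverage (fun η => m * Real.log ‖ζs + η * (δ : ℂ)‖) 0 1 =
          m * Real.log ‖ζs‖ := by
        have := Real.circleAverage_fun_smul (a := m)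
          (f := fun η : ℂ => Real.log ‖ζs + η * (δ : ℂ)‖) (c := 0) (R := 1)
        simp only [smul_eq_mul] at this
        rw [this, avg_log (fun η hη => norm_pos_iff.1 (ha.trans (hin η hη).1))]
      have e2 : Real.circleAverage (fun η => (-ε) * (ζs + η * (δ : ℂ)).re ^ 2) 0 1 =
          (-ε) * (ζs.re ^ 2 + δ ^ 2 / 2) := by
        have := Real.circleAverage_fun_smul (a := -ε)
          (f := fun η : ℂ => (ζs + η * (δ : ℂ)).re ^ 2) (c := 0) (R := 1)
        simp only [smul_eq_mul] at this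
        rw [this, avg_sq]
      rw [e1, e2]
    · exact circ_int (cl.const_smul m)
    · exact circ_int (cr.const_smul (-ε))
    · exact circ_int ((cl.const_smul m).add (cr.const_smul (-ε)))
    · exact circ_int continuousOn_const
  rw [hav] at hsub'
  have h9 : h' ζs = α + m * (Real.log ‖ζs‖ - Real.log a) + ε * (b ^ 2 - ζs.re ^ 2) := rfl
  have h10 : 0 < ε * (δ ^ 2 / 2) := by positivity
  nlinarith

end Pool.Agent.H914R3.CG
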