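import Mathlib

set_option autoImplicit false
open Set Filter Topology MeasureTheory

namespace Pool.Agent.H914R3.CG

/-- derivative of the cut function -/
noncomputable def Nd (A t : ℝ) : ℝ := Real.smoothTransition (A + 1 - t)

/-- the cut function: `N(t) = t` for `t ≤ A`, constant for `t ≥ A + 1`, concave, smooth -/
noncomputable def Nf (A w : ℝ) : ℝ := ∫ t in (0 : ℝ)..w, Nd A t

lemma Nd_cont (A : ℝ) : Continuous (Nd A) := by
  unfold Nd
  exact Real.smoothTransition.continuous.comp (by fun_prop)

lemma Nd_contDiff (A : ℝ) : ContDiff ℝ 1 (Nd A) := by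
  unfold Nd
  exact (Real.smoothTransition.contDiff (n := 1)).comp (by fun_prop)

lemma Nd_nonneg (A t : ℝ) : 0 ≤ Nd A t := Real.smoothTransition.nonneg _
lemma Nd_le_one (A t : ℝ) : Nd A t ≤ 1 := Real.smoothTransition.le_one _

lemma Nd_anti (A : ℝ) : Antitone (Nd A) := by
  intro a b h
  exact Real.smoothTransition.monotone (by linarith)

lemma Nd_one {A t : ℝ} (h : t ≤ A) : Nd A t = 1 := Real.smoothTransition.one_of_one_le (by linarith)
lemma Nd_zero {A t : ℝ} (h : A + 1 ≤ t) : Nd A t = 0 :=
  Real.smoothTransition.zero_of_nonpos (by linarith)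

lemma Nf_hasDeriv (A w : ℝ) : HasDerivAt (Nf A) (Nd A w) w := by
  unfold Nf
  exact intervalIntegral.integral_hasDerivAt_right ((Nd_cont A).intervalIntegrable _ _)
    ((Nd_cont A).stronglyMeasurableAtFilter _ _) (Nd_cont A).continuousAt

lemma Nf_contDiff (A : ℝ) : ContDiff ℝ 2 (Nf A) := by
  have h : deriv (Nf A) = Nd A := funext fun w => (Nf_hasDeriv A w).deriv
  have : (2 : WithTop ℕ∞) = 1 + 1 := by norm_num
  rw [this, contDiff_succ_iff_deriv]
  refine ⟨fun w => (Nf_hasDeriv A w).differentiableAt, by simp, ?_⟩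
  rw [h]
  exact Nd_contDiff A

lemma Nf_sub (A a b : ℝ) : Nf A b - Nf A a = ∫ t in a..b, Nd A t := by
  unfold Nf
  rw [intervalIntegral.integral_interval_sub_left] <;> exact (Nd_cont A).intervalIntegrable _ _

/-- concavity -/
lemma Nf_tangent (A w w0 : ℝ) : Nf A w ≤ Nf A w0 + Nd A w0 * (w - w0) := by
  have h := Nf_sub A w0 w
  have h2 : ∫ t in w0..w, Nd A t ≤ Nd A w0 * (w - w0) := by
    rcases le_total w0 w with hw | hw
    · calc ∫ t in w0..w, Nd A t ≤ ∫ _t in w0..w, Nd A w0 := by
            apply intervalIntegral.integral_mono_on hw ((Nd_cont A).intervalIntegrable _ _)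
              (continuous_const.intervalIntegrable _ _)
            intro x hx
            exact Nd_anti A hx.1
        _ = Nd A w0 * (w - w0) := by
            rw [intervalIntegral.integral_const, smul_eq_mul]; ring
    · rw [intervalIntegral.integral_symm]
      have : ∫ _t in w..w0, Nd A w0 ≤ ∫ t in w..w0, Nd A t := by
        apply intervalIntegral.integral_mono_on hw (continuous_const.intervalIntegrable _ _)
          ((Nd_cont A).intervalIntegrable _ _)
        intro x hx
        exact Nd_anti A hx.2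
      rw [intervalIntegral.integral_const, smul_eq_mul] at this
      nlinarith
  linarith

lemma Nf_zero (A : ℝ) : Nf A 0 = 0 := by unfold Nf; simp

lemma Nf_coef_nonneg (A w0 : ℝ) : 0 ≤ Nf A w0 - w0 * Nd A w0 := by
  have := Nf_tangent A 0 w0
  rw [Nf_zero] at this
  linarith

lemma Nf_id {A w : ℝ} (h : w ≤ A) (hA : 0 ≤ A) : Nf A w = w := by
  have h1 : ∫ t in (0 : ℝ)..w, Nd A t = ∫ _t in (0 : ℝ)..w, (1 : ℝ) := by
    apply intervalIntegral.integral_congr
    intro t ht
    apply Nd_one
    rcases le_total 0 w with hw | hw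
    · rw [uIcc_of_le hw] at ht; exact ht.2.trans h
    · rw [uIcc_of_ge hw] at ht; exact ht.2.trans hA
  unfold Nf
  rw [h1]
  simp

lemma Nf_const {A w : ℝ} (h : A + 1 ≤ w) : Nf A w = Nf A (A + 1) := by
  have h2 : ∫ t in (A + 1)..w, Nd A t = 0 := by
    rw [intervalIntegral.integral_congr (g := fun _ => (0 : ℝ))]
    · simp
    · intro t ht
      rw [uIcc_of_le h] at ht
      exact Nd_zero ht.1
  have := Nf_sub A (A + 1) w
  linarith

lemma Nf_mono (A : ℝ) : Monotone (Nf A) := by
  intro a b h
  have := Nf_sub A a b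
  have h2 : 0 ≤ ∫ t in a..b, Nd A t :=
    intervalIntegral.integral_nonneg h (fun t _ => Nd_nonneg A t)
  linarith

lemma Nf_le (A w : ℝ) : Nf A w ≤ Nf A (A + 1) := by
  rcases le_total w (A + 1) with h | h
  · exact Nf_mono A h
  · exact (Nf_const h).le

end Pool.Agent.H914R3.CG
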