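import Mathlib
import Pool.Agent.H914R3.CG.Defs
import Pool.Agent.H914R3.CG.Ann

set_option autoImplicit false
open Set Filter Topology MeasureTheory

namespace Pool.Agent.H914R3.CG

/-- the points with nonzero coordinates -/
def OO : Set (Fin 2 → ℂ) := {z | z 0 ≠ 0 ∧ z 1 ≠ 0}

/-- logarithmic coordinates -/
noncomputable def X (z : Fin 2 → ℂ) : ℝ := Real.log ‖z 0‖
noncomputable def Y (z : Fin 2 → ℂ) : ℝ := Real.log ‖z 1‖

lemma isOpen_OO : IsOpen OO := by
  have h0 : IsOpen {z : Fin 2 → ℂ | z 0 ≠ 0} :=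
    isOpen_ne_fun (continuous_apply 0) continuous_const
  have h1 : IsOpen {z : Fin 2 → ℂ | z 1 ≠ 0} :=
    isOpen_ne_fun (continuous_apply 1) continuous_const
  exact h0.inter h1

lemma X_contDiffAt {z : Fin 2 → ℂ} (h : z ∈ OO) : ContDiffAt ℝ 2 X z := by
  unfold X
  have h1 : ContDiffAt ℝ 2 (fun z : Fin 2 → ℂ => z 0) z :=
    (contDiff_apply ℝ ℂ (0 : Fin 2)).contDiffAt
  exact (h1.norm ℝ h.1).log (norm_ne_zero_iff.2 h.1)

lemma Y_contDiffAt {z : Fin 2 → ℂ} (h : z ∈ OO) : ContDiffAt ℝ 2 Y z := by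
  unfold Y
  have h1 : ContDiffAt ℝ 2 (fun z : Fin 2 → ℂ => z 1) z :=
    (contDiff_apply ℝ ℂ (1 : Fin 2)).contDiffAt
  exact (h1.norm ℝ h.2).log (norm_ne_zero_iff.2 h.2)

lemma aff_mean {a b c : ℝ} {z v : Fin 2 → ℂ} (h : ∀ ζ : ℂ, ‖ζ‖ ≤ 1 → z + ζ • v ∈ OO) :
    Real.circleAverage (fun ζ => a * X (z + ζ • v) + b * Y (z + ζ • v) + c) 0 1 =
      a * X z + b * Y z + c := by
  have hx : ∀ ζ : ℂ, X (z + ζ • v) = Real.log ‖z 0 + ζ * v 0‖ := fun ζ => rfl
  have hy : ∀ ζ : ℂ, Y (z + ζ • v) = Real.log ‖z 1 + ζ * v 1‖ := fun ζ => rfl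
  simp only [hx, hy]
  have c0 : ContinuousOn (fun η : ℂ => Real.log ‖z 0 + η * v 0‖) (Metric.sphere 0 1) := by
    intro η hη
    rw [sphere_iff] at hη
    have h6 : ‖z 0 + η * v 0‖ ≠ 0 := norm_ne_zero_iff.2 (h η hη.le).1
    have h7 : ContinuousAt (fun η : ℂ => ‖z 0 + η * v 0‖) η := by fun_prop
    exact (ContinuousAt.log h7 h6).continuousWithinAt
  have c1 : ContinuousOn (fun η : ℂ => Real.log ‖z 1 + η * v 1‖) (Metric.sphere 0 1) := by
    intro η hη
    rw [sphere_iff] at hη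
    have h6 : ‖z 1 + η * v 1‖ ≠ 0 := norm_ne_zero_iff.2 (h η hη.le).2
    have h7 : ContinuousAt (fun η : ℂ => ‖z 1 + η * v 1‖) η := by fun_prop
    exact (ContinuousAt.log h7 h6).continuousWithinAt
  rw [Real.circleAverage_fun_add, Real.circleAverage_fun_add, Real.circleAverage_const]
  · have e1 : Real.circleAverage (fun η => a * Real.log ‖z 0 + η * v 0‖) 0 1 =
        a * Real.log ‖z 0‖ := by
      have := Real.circleAverage_fun_smul (a := a)
        (f := fun η : ℂ => Real.log ‖z 0 + η * v 0‖) (c := 0) (R := 1)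
      simp only [smul_eq_mul] at this
      rw [this, avg_log (fun η hη => (h η hη).1)]
    have e2 : Real.circleAverage (fun η => b * Real.log ‖z 1 + η * v 1‖) 0 1 =
        b * Real.log ‖z 1‖ := by
      have := Real.circleAverage_fun_smul (a := b)
        (f := fun η : ℂ => Real.log ‖z 1 + η * v 1‖) (c := 0) (R := 1)
      simp only [smul_eq_mul] at this
      rw [this, avg_log (fun η hη => (h η hη).2)]
    rw [e1, e2]
    rfl
  · exact circ_int (c0.const_smul a)
  · exact circ_int (c1.const_smul b)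
  · exact circ_int ((c0.const_smul a).add (c1.const_smul b))
  · exact circ_int continuousOn_const

/-- a continuous function with supporting functions affine in the logarithmic coordinates is
plurisubharmonic -/
theorem psh_of_tangent {Ω : Set (Fin 2 → ℂ)} (hΩ : Ω ⊆ OO) {f : (Fin 2 → ℂ) → ℝ}
    (hf : ContinuousOn f Ω)
    (ht : ∀ z ∈ Ω, ∃ a b c : ℝ, a * X z + b * Y z + c = f z ∧
      ∀ w ∈ Ω, a * X w + b * Y w + c ≤ f w) :
    IsPSH Ω (fun z => (f z : EReal)) := by
  refine ⟨fun z _ => EReal.coe_lt_top _, ?_, ?_⟩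
  · exact (continuous_coe_real_ereal.comp_continuousOn hf).upperSemicontinuousOn
  · intro z v hv g hg hle
    have hz : z ∈ Ω := by simpa using hv 0 (by simp)
    obtain ⟨a, b, c, h1, h2⟩ := ht z hz
    have hm := aff_mean (a := a) (b := b) (c := c) (fun ζ hζ => hΩ (hv ζ hζ))
    show ((f z : ℝ) : EReal) ≤ _
    rw [← h1, ← hm]
    have hcont : ContinuousOn (fun ζ : ℂ => a * X (z + ζ • v) + b * Y (z + ζ • v) + c)
        (Metric.sphere 0 1) := by
      intro η hη
      rw [sphere_iff] at hη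
      have ho := hΩ (hv η hη.le)
      have hl : ContinuousAt (fun η : ℂ => z + η • v) η := by fun_prop
      have hX : ContinuousAt (fun η : ℂ => X (z + η • v)) η :=
        ContinuousAt.comp (f := fun η : ℂ => z + η • v) (X_contDiffAt ho).continuousAt hl
      have hY : ContinuousAt (fun η : ℂ => Y (z + η • v)) η :=
        ContinuousAt.comp (f := fun η : ℂ => z + η • v) (Y_contDiffAt ho).continuousAt hl
      exact (((hX.const_mul a).add (hY.const_mul b)).add continuousAt_const).continuousWithinAt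
    have := Real.circleAverage_mono (circ_int hcont) (circ_int hg) (fun ζ hζ => by
      have hζ' : ‖ζ‖ = 1 := by simpa using hζ
      have h3 := h2 _ (hv ζ hζ'.le)
      have h4 : ((f (z + ζ • v) : ℝ) : EReal) ≤ ((g ζ : ℝ) : EReal) := hle ζ hζ'
      have h5 : f (z + ζ • v) ≤ g ζ := by exact_mod_cast h4
      exact h3.trans h5)
    exact_mod_cast this

end Pool.Agent.H914R3.CG
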