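import Mathlib
import Pool.Agent.H914R3.CG.Psh
import Pool.Agent.H914R3.CG.Nfun

set_option autoImplicit false
open Set Filter Topology MeasureTheory

namespace Pool.Agent.H914R3.CG

/-- the defining function in logarithmic coordinates -/
noncomputable def rho (z : Fin 2 → ℂ) : ℝ := X z ^ 2 + Y z ^ 2 - 2 * Y z

/-- the domain -/
def Om : Set (Fin 2 → ℂ) := {z | z ∈ OO ∧ rho z < 0}

/-- `r = x²/y + y` -/
noncomputable def rr (z : Fin 2 → ℂ) : ℝ := X z ^ 2 / Y z + Y z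

/-- the function `u` -/
noncomputable def uu (z : Fin 2 → ℂ) : ℝ := (rr z ^ 2 - 4) / 2

lemma X_cont {z : Fin 2 → ℂ} (h : z ∈ OO) : ContinuousAt X z := (X_contDiffAt h).continuousAt
lemma Y_cont {z : Fin 2 → ℂ} (h : z ∈ OO) : ContinuousAt Y z := (Y_contDiffAt h).continuousAt

lemma rho_cont {z : Fin 2 → ℂ} (h : z ∈ OO) : ContinuousAt rho z := by
  unfold rho
  exact (((X_cont h).pow 2).add ((Y_cont h).pow 2)).sub ((Y_cont h).const_mul 2)

lemma Om_sub : Om ⊆ OO := fun _ h => h.1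

lemma isOpen_Om : IsOpen Om := by
  rw [isOpen_iff_mem_nhds]
  intro z hz
  filter_upwards [isOpen_OO.mem_nhds hz.1,
    (rho_cont hz.1).eventually (Iio_mem_nhds hz.2)] with w h1 h2
  exact ⟨h1, h2⟩

lemma Y_pos {z : Fin 2 → ℂ} (hz : z ∈ Om) : 0 < Y z := by
  have h := hz.2
  unfold rho at h
  nlinarith [sq_nonneg (X z), sq_nonneg (Y z)]

lemma Y_lt {z : Fin 2 → ℂ} (hz : z ∈ Om) : Y z < 2 := by
  have h := hz.2
  have := Y_pos hz
  unfold rho at h
  nlinarith [sq_nonneg (X z)]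

lemma X_sq {z : Fin 2 → ℂ} (hz : z ∈ Om) : X z ^ 2 < 1 := by
  have h := hz.2
  unfold rho at h
  nlinarith [sq_nonneg (Y z - 1)]

lemma rho_eq {z : Fin 2 → ℂ} (hz : z ∈ Om) : rho z = Y z * (rr z - 2) := by
  have := (Y_pos hz).ne'
  unfold rho rr
  field_simp

lemma rr_pos {z : Fin 2 → ℂ} (hz : z ∈ Om) : 0 < rr z := by
  have := Y_pos hz
  unfold rr
  positivity

lemma rr_lt {z : Fin 2 → ℂ} (hz : z ∈ Om) : rr z < 2 := by
  have h1 := rho_eq hz
  have h2 := hz.2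
  have h3 := Y_pos hz
  by_contra hc
  push Not at hc
  have : 0 ≤ Y z * (rr z - 2) := mul_nonneg h3.le (by linarith)
  linarith

lemma rr_cont {z : Fin 2 → ℂ} (hz : z ∈ Om) : ContinuousAt rr z := by
  unfold rr
  exact (((X_cont hz.1).pow 2).div (Y_cont hz.1) (Y_pos hz).ne').add (Y_cont hz.1)

lemma uu_cont {z : Fin 2 → ℂ} (hz : z ∈ Om) : ContinuousAt uu z := by
  unfold uu
  exact (((rr_cont hz).pow 2).sub continuousAt_const).div_const 2

/-- supporting functions of `rho` -/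
lemma rho_tan (z w : Fin 2 → ℂ) :
    (2 * X z) * X w + (2 * Y z - 2) * Y w + (-(X z ^ 2) - Y z ^ 2) ≤ rho w := by
  unfold rho
  nlinarith [sq_nonneg (X w - X z), sq_nonneg (Y w - Y z)]

lemma rho_tan_eq (z : Fin 2 → ℂ) :
    (2 * X z) * X z + (2 * Y z - 2) * Y z + (-(X z ^ 2) - Y z ^ 2) = rho z := by
  unfold rho; ring

lemma rr_tan (k : ℝ) {w : Fin 2 → ℂ} (hw : w ∈ Om) :
    2 * k * X w + (1 - k ^ 2) * Y w ≤ rr w := by
  have hy := Y_pos hw
  unfold rr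
  have h : X w ^ 2 / Y w + Y w - (2 * k * X w + (1 - k ^ 2) * Y w) = (X w - k * Y w) ^ 2 / Y w := by
    field_simp; ring
  have : 0 ≤ (X w - k * Y w) ^ 2 / Y w := by positivity
  linarith

lemma rr_tan_eq {w : Fin 2 → ℂ} (hw : w ∈ Om) :
    2 * (X w / Y w) * X w + (1 - (X w / Y w) ^ 2) * Y w = rr w := by
  have hy := (Y_pos hw).ne'
  unfold rr
  field_simp
  ring

/-- supporting functions of `uu` -/
lemma uu_tan {z w : Fin 2 → ℂ} (hz : z ∈ Om) (hw : w ∈ Om) :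
    (rr z * (2 * (X z / Y z))) * X w + (rr z * (1 - (X z / Y z) ^ 2)) * Y w +
      (-(rr z ^ 2) / 2 - 2) ≤ uu w := by
  have h1 := rr_tan (X z / Y z) hw
  have h2 := rr_pos hz
  have h3 : rr z * (2 * (X z / Y z) * X w + (1 - (X z / Y z) ^ 2) * Y w) ≤ rr z * rr w :=
    mul_le_mul_of_nonneg_left h1 h2.le
  unfold uu
  nlinarith [sq_nonneg (rr w - rr z)]

lemma uu_tan_eq {z : Fin 2 → ℂ} (hz : z ∈ Om) :
    (rr z * (2 * (X z / Y z))) * X z + (rr z * (1 - (X z / Y z) ^ 2)) * Y z +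
      (-(rr z ^ 2) / 2 - 2) = uu z := by
  have h1 := rr_tan_eq hz
  have : (rr z * (2 * (X z / Y z))) * X z + (rr z * (1 - (X z / Y z) ^ 2)) * Y z =
      rr z * rr z := by
    rw [← h1]; ring_nf
  rw [this]
  unfold uu
  ring

lemma rho_psh : IsPSH Om (fun z => (rho z : EReal)) :=
  psh_of_tangent Om_sub (fun _ hz => (rho_cont hz.1).continuousWithinAt)
    (fun z _ => ⟨_, _, _, rho_tan_eq z, fun w _ => rho_tan z w⟩)

lemma uu_psh : IsPSH Om (fun z => (uu z : EReal)) :=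
  psh_of_tangent Om_sub (fun _ hz => (uu_cont hz).continuousWithinAt)
    (fun _ hz => ⟨_, _, _, uu_tan_eq hz, fun _ hw => uu_tan hz hw⟩)

lemma uu_neg {z : Fin 2 → ℂ} (hz : z ∈ Om) : uu z < 0 := by
  have h1 := rr_pos hz
  have h2 := rr_lt hz
  unfold uu
  nlinarith

/-! ### the functions in `𝓔₀` -/

/-- the quotient `u / ρ` -/
noncomputable def ww (z : Fin 2 → ℂ) : ℝ := 1 / 2 + 1 / Y z + X z ^ 2 / (2 * Y z ^ 2)

lemma uu_eq {z : Fin 2 → ℂ} (hz : z ∈ Om) : uu z = rho z * ww z := by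
  have := (Y_pos hz).ne'
  rw [rho_eq hz]
  unfold uu ww
  have h : rr z + 2 = 2 * Y z * (1 / 2 + 1 / Y z + X z ^ 2 / (2 * Y z ^ 2)) := by
    unfold rr; field_simp; ring
  have : (rr z ^ 2 - 4) / 2 = (rr z - 2) * (rr z + 2) / 2 := by ring
  rw [this, h]
  ring

/-- the function in `𝓔₀(Ω)` which is equal to `u` far from the bad point -/
noncomputable def ph (A : ℝ) (z : Fin 2 → ℂ) : ℝ :=
  rho z * (if 0 < Y z then Nf A (ww z) else Nf A (A + 1))

lemma ph_eq {A : ℝ} {z : Fin 2 → ℂ} (hz : z ∈ Om) : ph A z = rho z * Nf A (ww z) := by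
  unfold ph
  rw [if_pos (Y_pos hz)]

lemma ww_ge {z : Fin 2 → ℂ} (hz : 0 < Y z) : 1 / Y z ≤ ww z := by
  unfold ww
  have : 0 ≤ X z ^ 2 / (2 * Y z ^ 2) := by positivity
  linarith

lemma ww_half {z : Fin 2 → ℂ} (hz : 0 < Y z) : 1 / 2 ≤ ww z := by
  unfold ww
  have : 0 ≤ X z ^ 2 / (2 * Y z ^ 2) := by positivity
  have : 0 ≤ 1 / Y z := by positivity
  linarith

lemma rho_contDiffAt {z : Fin 2 → ℂ} (h : z ∈ OO) : ContDiffAt ℝ 2 rho z := by
  unfold rho
  exact (((X_contDiffAt h).pow 2).add ((Y_contDiffAt h).pow 2)).sub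
    (contDiffAt_const.mul (Y_contDiffAt h))

lemma ww_contDiffAt {z : Fin 2 → ℂ} (h : z ∈ OO) (hy : 0 < Y z) : ContDiffAt ℝ 2 ww z := by
  unfold ww
  refine (contDiffAt_const.add (contDiffAt_const.div (Y_contDiffAt h) hy.ne')).add
    (((X_contDiffAt h).pow 2).div (contDiffAt_const.mul ((Y_contDiffAt h).pow 2)) (by positivity))

lemma ph_contDiffAt {A : ℝ} (hA : 0 ≤ A) {z : Fin 2 → ℂ} (h : z ∈ OO) :
    ContDiffAt ℝ 2 (ph A) z := by
  unfold ph
  refine (rho_contDiffAt h).mul ?_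
  rcases lt_or_ge 0 (Y z) with hy | hy
  · have h1 : ContDiffAt ℝ 2 (fun z => Nf A (ww z)) z :=
      ContDiffAt.comp (g := Nf A) z (Nf_contDiff A).contDiffAt (ww_contDiffAt h hy)
    refine h1.congr_of_eventuallyEq ?_
    filter_upwards [(Y_cont h).eventually (Ioi_mem_nhds hy)] with w hw
    exact if_pos hw
  · have h1 : ContDiffAt ℝ 2 (fun _ : Fin 2 → ℂ => Nf A (A + 1)) z := contDiffAt_const
    refine h1.congr_of_eventuallyEq ?_
    have hpos : (0 : ℝ) < 1 / (A + 1) := by positivity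
    filter_upwards [(Y_cont h).eventually (Iio_mem_nhds (hy.trans_lt hpos))] with w hw
    split_ifs with h2
    · apply Nf_const
      refine le_trans ?_ (ww_ge h2)
      rw [le_div_iff₀ h2]
      have hw' : Y w < 1 / (A + 1) := hw
      rw [lt_div_iff₀ (by positivity)] at hw'
      linarith
    · rfl

lemma ph_tan {A : ℝ} {z w : Fin 2 → ℂ} (hw : w ∈ Om) :
    Nd A (ww z) * uu w + (Nf A (ww z) - ww z * Nd A (ww z)) * rho w ≤ ph A w := by
  rw [ph_eq hw, uu_eq hw]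
  have h1 := Nf_tangent A (ww w) (ww z)
  have h2 := hw.2
  have h3 : rho w * (Nf A (ww z) + Nd A (ww z) * (ww w - ww z)) ≤ rho w * Nf A (ww w) :=
    mul_le_mul_of_nonpos_left h1 h2.le
  nlinarith

lemma ph_psh {A : ℝ} (hA : 0 ≤ A) : IsPSH Om (fun z => (ph A z : EReal)) := by
  refine psh_of_tangent Om_sub
    (fun _ hz => (ph_contDiffAt hA hz.1).continuousAt.continuousWithinAt) ?_
  intro z hz
  set p := Nd A (ww z)
  set q := Nf A (ww z) - ww z * Nd A (ww z)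
  have hp : 0 ≤ p := Nd_nonneg _ _
  have hq : 0 ≤ q := Nf_coef_nonneg _ _
  refine ⟨p * (rr z * (2 * (X z / Y z))) + q * (2 * X z),
    p * (rr z * (1 - (X z / Y z) ^ 2)) + q * (2 * Y z - 2),
    p * (-(rr z ^ 2) / 2 - 2) + q * (-(X z ^ 2) - Y z ^ 2), ?_, ?_⟩
  · have e1 := uu_tan_eq hz
    have e2 := rho_tan_eq z
    have e3 : ph A z = p * uu z + q * rho z := by
      rw [ph_eq hz, uu_eq hz]; simp only [p, q]; ring
    rw [e3, ← e1, ← e2]; ring
  · intro w hw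
    have e1 := mul_le_mul_of_nonneg_left (uu_tan hz hw) hp
    have e2 := mul_le_mul_of_nonneg_left (rho_tan z w) hq
    have e3 := ph_tan (A := A) (z := z) hw
    have e4 : p * uu w + q * rho w ≤ ph A w := e3
    linarith

end Pool.Agent.H914R3.CG
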