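import Mathlib
import Pool.Agent.H914R3.CG.Ex

set_option autoImplicit false
open Set Filter Topology MeasureTheory

namespace Pool.Agent.H914R3.CG

/-- a compact set containing the domain -/
def FF : Set (Fin 2 → ℂ) :=
  {z | (Real.exp (-1) ≤ ‖z 0‖ ∧ ‖z 0‖ ≤ Real.exp 1) ∧ (1 ≤ ‖z 1‖ ∧ ‖z 1‖ ≤ Real.exp 2)}

lemma FF_sub : FF ⊆ OO := by
  intro z hz
  refine ⟨fun h => ?_, fun h => ?_⟩
  · have := hz.1.1
    rw [h, norm_zero] at this
    exact absurd (Real.exp_pos (-1)) (not_lt.2 this)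
  · have := hz.2.1
    rw [h, norm_zero] at this
    linarith

lemma Om_FF : Om ⊆ FF := by
  intro z hz
  have h1 := X_sq hz
  have h2 := Y_pos hz
  have h3 := Y_lt hz
  have hx : -1 < X z ∧ X z < 1 := abs_lt.1 ((sq_lt_one_iff_abs_lt_one _).1 h1)
  have p0 : 0 < ‖z 0‖ := norm_pos_iff.2 hz.1.1
  have p1 : 0 < ‖z 1‖ := norm_pos_iff.2 hz.1.2
  unfold X at hx
  unfold Y at h2 h3
  refine ⟨⟨?_, ?_⟩, ?_, ?_⟩
  · exact (Real.le_log_iff_exp_le p0).1 hx.1.le
  · exact (Real.log_le_iff_le_exp p0).1 hx.2.le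
  · by_contra hc
    push Not at hc
    have := Real.log_neg p1 hc
    linarith
  · exact (Real.log_le_iff_le_exp p1).1 h3.le

lemma FF_compact : IsCompact FF := by
  apply Metric.isCompact_of_isClosed_isBounded
  · unfold FF
    have c0 : Continuous (fun z : Fin 2 → ℂ => ‖z 0‖) := (continuous_apply 0).norm
    have c1 : Continuous (fun z : Fin 2 → ℂ => ‖z 1‖) := (continuous_apply 1).norm
    exact ((isClosed_le continuous_const c0).inter (isClosed_le c0 continuous_const)).inter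
      ((isClosed_le continuous_const c1).inter (isClosed_le c1 continuous_const))
  · refine (Metric.isBounded_closedBall (x := (0 : Fin 2 → ℂ)) (r := Real.exp 2)).subset ?_
    intro z hz
    rw [mem_closedBall_zero_iff, pi_norm_le_iff_of_nonneg (Real.exp_pos 2).le]
    intro i
    fin_cases i
    · exact hz.1.2.trans (Real.exp_le_exp.2 (by norm_num))
    · exact hz.2.2

/-- compact sublevel sets -/
def KK (c : ℝ) : Set (Fin 2 → ℂ) := FF ∩ rho ⁻¹' Iic c

lemma KK_compact (c : ℝ) : IsCompact (KK c) := by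
  have hc : IsClosed (KK c) :=
    ContinuousOn.preimage_isClosed_of_isClosed
      (fun _ hz => (rho_cont (FF_sub hz)).continuousWithinAt) FF_compact.isClosed isClosed_Iic
  exact FF_compact.of_isClosed_subset hc inter_subset_left

lemma KK_sub {c : ℝ} (hc : c < 0) : KK c ⊆ Om := fun _ hz => ⟨FF_sub hz.1, lt_of_le_of_lt hz.2 hc⟩

lemma mem_KK {c : ℝ} {z : Fin 2 → ℂ} (hz : z ∈ Om) (h : rho z ≤ c) : z ∈ KK c := ⟨Om_FF hz, h⟩

lemma rho_gt {c : ℝ} {z : Fin 2 → ℂ} (hz : z ∈ Om \ KK c) : c < rho z := by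
  by_contra h
  push Not at h
  exact hz.2 (mem_KK hz.1 h)

lemma mem_Om_iff {a b : ℂ} : (![a, b] : Fin 2 → ℂ) ∈ Om ↔
    (a ≠ 0 ∧ b ≠ 0) ∧ Real.log ‖a‖ ^ 2 + Real.log ‖b‖ ^ 2 - 2 * Real.log ‖b‖ < 0 := Iff.rfl

/-- the point `(1, e)` -/
noncomputable def zs : Fin 2 → ℂ := ![1, Complex.exp 1]

lemma zs_X : X zs = 0 := by simp [X, zs]
lemma zs_Y : Y zs = 1 := by
  simp [Y, zs, Complex.norm_exp]

lemma zs_mem : zs ∈ Om := by
  refine ⟨⟨?_, ?_⟩, ?_⟩
  · simp [zs]
  · simp [zs]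
  · unfold rho
    rw [zs_X, zs_Y]
    norm_num

lemma Om_conn : IsConnected Om := by
  refine ⟨⟨zs, zs_mem⟩, ?_⟩
  set D : Set ((ℝ × ℝ) × (ℝ × ℝ)) := {p | p.1.1 ^ 2 + p.1.2 ^ 2 - 2 * p.1.2 < 0} with hD
  have hconv : Convex ℝ D := by
    intro p hp q hq a b ha hb hab
    simp only [hD, mem_ofPred_eq] at hp hq ⊢
    simp only [Prod.fst_add, Prod.smul_fst, Prod.snd_add, Prod.smul_snd, smul_eq_mul]
    have hb' : b = 1 - a := by linarith
    have h1 : a * (p.1.1 ^ 2 + p.1.2 ^ 2 - 2 * p.1.2) + b * (q.1.1 ^ 2 + q.1.2 ^ 2 - 2 * q.1.2)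
        < 0 := by
      rcases ha.eq_or_lt with h | h
      · have : b = 1 := by linarith
        rw [← h, this]; linarith
      · have e1 := mul_neg_of_pos_of_neg h hp
        have e2 := mul_nonpos_of_nonneg_of_nonpos hb hq.le
        linarith
    have h2 : 0 ≤ a * b * ((p.1.1 - q.1.1) ^ 2 + (p.1.2 - q.1.2) ^ 2) := by positivity
    have h3 : (a * p.1.1 + b * q.1.1) ^ 2 + (a * p.1.2 + b * q.1.2) ^ 2 -
        2 * (a * p.1.2 + b * q.1.2) =
        a * (p.1.1 ^ 2 + p.1.2 ^ 2 - 2 * p.1.2) + b * (q.1.1 ^ 2 + q.1.2 ^ 2 - 2 * q.1.2) -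
        a * b * ((p.1.1 - q.1.1) ^ 2 + (p.1.2 - q.1.2) ^ 2) := by
      rw [hb']; ring
    rw [h3]; linarith
  set E : (ℝ × ℝ) × (ℝ × ℝ) → (Fin 2 → ℂ) := fun p =>
    ![Complex.exp (p.1.1 + p.2.1 * Complex.I), Complex.exp (p.1.2 + p.2.2 * Complex.I)] with hE
  have hEc : Continuous E := by
    rw [hE]
    refine continuous_pi fun i => ?_
    fin_cases i
    · show Continuous fun p : (ℝ × ℝ) × (ℝ × ℝ) => Complex.exp (p.1.1 + p.2.1 * Complex.I)
      fun_prop
    · show Continuous fun p : (ℝ × ℝ) × (ℝ × ℝ) => Complex.exp (p.1.2 + p.2.2 * Complex.I)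
      fun_prop
  have him : Om = E '' D := by
    ext z
    constructor
    · intro hz
      refine ⟨((X z, Y z), (Complex.arg (z 0), Complex.arg (z 1))), hz.2, ?_⟩
      rw [hE]
      funext i
      fin_cases i
      · exact Complex.exp_log hz.1.1
      · exact Complex.exp_log hz.1.2
    · rintro ⟨p, hp, rfl⟩
      have e0 : Real.log ‖Complex.exp (p.1.1 + p.2.1 * Complex.I)‖ = p.1.1 := by
        rw [Complex.norm_exp, Real.log_exp]; simp
      have e1 : Real.log ‖Complex.exp (p.1.2 + p.2.2 * Complex.I)‖ = p.1.2 := by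
        rw [Complex.norm_exp, Real.log_exp]; simp
      rw [hE, mem_Om_iff, e0, e1]
      exact ⟨⟨Complex.exp_ne_zero _, Complex.exp_ne_zero _⟩, hp⟩
  rw [him]
  exact hconv.isPreconnected.image E hEc.continuousOn

theorem Om_hyperconvex : IsHyperconvex Om := by
  refine ⟨isOpen_Om, Om_conn, FF_compact.isBounded.subset Om_FF, rho,
    fun _ hz => (rho_cont hz.1).continuousWithinAt, rho_psh, fun z hz => hz.2, ?_⟩
  intro c hc
  exact ⟨KK c, KK_compact c, KK_sub hc, fun z hz h => mem_KK hz h⟩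

/-! ### membership in `𝓔₀` and `𝓔` -/

lemma rho_ge (z : Fin 2 → ℂ) : -1 ≤ rho z := by
  unfold rho
  nlinarith [sq_nonneg (X z), sq_nonneg (Y z - 1)]

lemma Nf_nonneg {A w : ℝ} (hw : 0 ≤ w) : 0 ≤ Nf A w := by
  have := Nf_mono A hw
  rwa [Nf_zero] at this

lemma ph_nonpos {A : ℝ} {z : Fin 2 → ℂ} (hz : z ∈ Om) : ph A z ≤ 0 := by
  rw [ph_eq hz]
  have h1 := ww_half (Y_pos hz)
  exact mul_nonpos_of_nonpos_of_nonneg hz.2.le (Nf_nonneg (by linarith))

lemma ph_ge {A : ℝ} {z : Fin 2 → ℂ} (hz : z ∈ Om) : rho z * Nf A (A + 1) ≤ ph A z := by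
  rw [ph_eq hz]
  exact mul_le_mul_of_nonpos_left (Nf_le A (ww z)) hz.2.le

lemma D2_cont {f : (Fin 2 → ℂ) → ℝ} {z : Fin 2 → ℂ} (hf : ContDiffAt ℝ 2 f z)
    (v w : Fin 2 → ℂ) : ContinuousAt (fun z => D2 f z v w) z := by
  have h1 : ContDiffAt ℝ 1 (fderiv ℝ f) z := hf.fderiv_right (by norm_num)
  have h2 : ContDiffAt ℝ 0 (fderiv ℝ (fderiv ℝ f)) z := h1.fderiv_right (by norm_num)
  have h3 := h2.continuousAt
  unfold D2
  exact (h3.clm_apply continuousAt_const).clm_apply continuousAt_const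

lemma MA_cont {f : (Fin 2 → ℂ) → ℝ} {z : Fin 2 → ℂ} (hf : ContDiffAt ℝ 2 f z) :
    ContinuousAt (MA f) z := by
  have key : ∀ j k : Fin 2, ContinuousAt (fun z => hess f z j k) z := by
    intro j k
    simp only [hess, Matrix.of_apply]
    have a1 := D2_cont hf (Pi.single j 1) (Pi.single k 1)
    have a2 := D2_cont hf (Pi.single j Complex.I) (Pi.single k Complex.I)
    have a3 := D2_cont hf (Pi.single j 1) (Pi.single k Complex.I)
    have a4 := D2_cont hf (Pi.single j Complex.I) (Pi.single k 1)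
    have b1 : ContinuousAt (fun z => ((D2 f z (Pi.single j 1) (Pi.single k 1) +
        D2 f z (Pi.single j Complex.I) (Pi.single k Complex.I) : ℝ) : ℂ)) z :=
      Complex.continuous_ofReal.continuousAt.comp (a1.add a2)
    have b2 : ContinuousAt (fun z => ((D2 f z (Pi.single j 1) (Pi.single k Complex.I) -
        D2 f z (Pi.single j Complex.I) (Pi.single k 1) : ℝ) : ℂ)) z :=
      Complex.continuous_ofReal.continuousAt.comp (a3.sub a4)
    exact (b1.add (continuousAt_const.mul b2)).div_const 4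
  unfold MA
  simp only [Matrix.det_fin_two]
  exact Complex.continuous_re.continuousAt.comp
    (((key 0 0).mul (key 1 1)).sub ((key 0 1).mul (key 1 0)))

lemma ph_mass {A : ℝ} (hA : 0 ≤ A) : ∃ C : ℝ, MassLE Om (ph A) C := by
  obtain ⟨C, hC⟩ := FF_compact.exists_bound_of_continuousOn
    (f := MA (ph A)) (fun z hz => (MA_cont (ph_contDiffAt hA (FF_sub hz))).continuousWithinAt)
  have hC0 : 0 ≤ C := (norm_nonneg _).trans (hC zs (Om_FF zs_mem))
  have hfin : volume Om ≠ ⊤ :=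
    (FF_compact.isBounded.subset Om_FF).measure_lt_top.ne
  refine ⟨C * (volume Om).toReal, fun _ => Om, fun _ => ph A, monotone_const, ?_, ?_, ?_⟩
  · exact iUnion_const Om
  · intro k
    refine ⟨isOpen_Om, fun z hz => (ph_contDiffAt hA hz.1).contDiffWithinAt, ph_psh hA,
      fun z _ => le_rfl, ?_⟩
    calc ∫⁻ z in Om, ENNReal.ofReal (MA (ph A) z) ≤ ∫⁻ _ in Om, ENNReal.ofReal C := by
          apply setLIntegral_mono' isOpen_Om.measurableSet
          intro z hz
          exact ENNReal.ofReal_le_ofReal ((le_abs_self _).trans (hC z (Om_FF hz)))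
      _ = ENNReal.ofReal C * volume Om := by rw [setLIntegral_const]
      _ = ENNReal.ofReal (C * (volume Om).toReal) := by
          rw [ENNReal.ofReal_mul hC0, ENNReal.ofReal_toReal hfin]
      _ ≤ _ := le_rfl
  · intro z _
    exact tendsto_const_nhds

lemma ph_E0 {A : ℝ} (hA : 0 ≤ A) : IsE0 Om (ph A) := by
  have hM : 0 ≤ Nf A (A + 1) := Nf_nonneg (by linarith)
  refine ⟨⟨ph_psh hA, fun z hz => ?_⟩, ⟨Nf A (A + 1), fun z hz => ?_⟩, ?_, ph_mass hA⟩
  · show ((ph A z : ℝ) : EReal) ≤ 0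
    exact_mod_cast ph_nonpos hz
  · have h1 := ph_ge (A := A) hz
    have h2 := mul_le_mul_of_nonneg_right (rho_ge z) hM
    linarith
  · intro ε hε
    have hneg : -(ε / (Nf A (A + 1) + 1)) < 0 := by
      have : 0 < ε / (Nf A (A + 1) + 1) := by positivity
      linarith
    refine ⟨KK (-(ε / (Nf A (A + 1) + 1))), KK_compact _, KK_sub hneg, ?_⟩
    intro z hz
    have h1 := rho_gt hz
    have h2 := ph_ge (A := A) hz.1
    have h3 := mul_le_mul_of_nonneg_right h1.le hM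
    have h4 : ε / (Nf A (A + 1) + 1) * Nf A (A + 1) < ε := by
      rw [div_mul_eq_mul_div, div_lt_iff₀ (by positivity)]
      nlinarith
    linarith

theorem uu_E : IsE Om (fun z => (uu z : EReal)) := by
  refine ⟨⟨uu_psh, fun z hz => ?_⟩, ?_⟩
  · show ((uu z : ℝ) : EReal) ≤ 0
    exact_mod_cast (uu_neg hz).le
  · intro z0 hz0
    have hy0 := Y_pos hz0
    set δ := Y z0 / 2 with hδ
    have hδ0 : 0 < δ := by positivity
    set A := 1 / 2 + 1 / δ + 1 / (2 * δ ^ 2) with hAdef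
    have hA : 0 ≤ A := by positivity
    refine ⟨{z | z ∈ Om ∧ δ < Y z}, ?_, ⟨hz0, by rw [hδ]; linarith⟩, fun z hz => hz.1, ?_⟩
    · rw [isOpen_iff_mem_nhds]
      intro z hz
      filter_upwards [isOpen_Om.mem_nhds hz.1,
        (Y_cont hz.1.1).eventually (Ioi_mem_nhds hz.2)] with w h1 h2
      exact ⟨h1, h2⟩
    · obtain ⟨C, hC⟩ := ph_mass hA
      refine ⟨fun _ => ph A, C, fun _ => ⟨ph_E0 hA, hC⟩, ?_⟩
      intro w hw
      refine ⟨antitone_const, ?_⟩
      have hyw := Y_pos hw.1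
      have hle : ww w ≤ A := by
        unfold ww
        have e1 : 1 / Y w ≤ 1 / δ := one_div_le_one_div_of_le hδ0 hw.2.le
        have e2 : X w ^ 2 / (2 * Y w ^ 2) ≤ 1 / (2 * δ ^ 2) := by
          apply div_le_div₀ zero_le_one (X_sq hw.1).le (by positivity)
          have := pow_le_pow_left₀ hδ0.le hw.2.le 2
          linarith
        rw [hAdef]; linarith
      have heq : ph A w = uu w := by
        rw [ph_eq hw.1, Nf_id hle hA, uu_eq hw.1]
      show Tendsto (fun _ : ℕ => ((ph A w : ℝ) : EReal)) atTop (𝓝 ((uu w : ℝ) : EReal))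
      rw [heq]
      exact tendsto_const_nhds

end Pool.Agent.H914R3.CG
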