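import Mathlib
import Pool.Agent.H914R3.CG.Hyp

set_option autoImplicit false
open Set Filter Topology MeasureTheory

namespace Pool.Agent.H914R3.CG

/-! ### the lower bound for `ũ` -/

lemma le_tilde {Ω : Set (Fin 2 → ℂ)} {u ψ : (Fin 2 → ℂ) → EReal} {K : Set (Fin 2 → ℂ)}
    {z : Fin 2 → ℂ} (hz : z ∈ Ω) (hK : IsCompact K) (hKΩ : K ⊆ Ω) (hψ : IsPSH Ω ψ)
    (h : ∀ w ∈ Ω \ K, ψ w ≤ u w) : ψ z ≤ tilde Ω u z := by
  unfold tilde
  refine le_iInf₂ fun s hs => ?_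
  have hzs : z ∈ s ∩ Ω := ⟨mem_of_mem_nhds hs, hz⟩
  refine le_trans ?_ (le_iSup₂_of_le z hzs le_rfl)
  refine le_trans ?_ (le_iSup₂_of_le K ⟨hK, hKΩ⟩ le_rfl)
  unfold envelope
  exact le_iSup₂_of_le ψ ⟨hψ, h⟩ le_rfl

lemma tilde_ge_aux (k ε : ℝ) (hε : 0 < ε) {z : Fin 2 → ℂ} (hz : z ∈ Om) :
    ((2 * k * X z + (1 - k ^ 2) * Y z - 2 - ε : ℝ) : EReal) ≤
      tilde Om (fun z => (uu z : EReal)) z := by
  set m : ℝ := 2 * |k| + |1 - k ^ 2| + 1 with hm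
  have hm0 : 0 < m := by positivity
  set s : ℝ := min 1 (ε / m) with hs
  have hs0 : 0 < s := lt_min one_pos (by positivity)
  have hs1 : s ≤ 1 := min_le_left _ _
  have hs2 : s * m ≤ ε := by
    have : s ≤ ε / m := min_le_right _ _
    rwa [le_div_iff₀ hm0] at this
  set δ : ℝ := s ^ 2 / 2 with hδ
  have hδ0 : 0 < δ := by positivity
  set η : ℝ := ε * δ / 2 with hη
  have hη0 : 0 < η := by positivity
  have key := le_tilde (u := fun z => (uu z : EReal))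
    (ψ := fun w => ((2 * k * X w + (1 - k ^ 2) * Y w - 2 - ε : ℝ) : EReal)) hz
    (KK_compact (-η)) (KK_sub (by linarith)) ?_ ?_
  · exact key
  · apply psh_of_tangent (f := fun w => 2 * k * X w + (1 - k ^ 2) * Y w - 2 - ε) Om_sub
    · intro w hw
      have c0 := X_cont hw.1
      have c1 := Y_cont hw.1
      exact ((((c0.const_mul (2 * k)).add (c1.const_mul (1 - k ^ 2))).sub
        continuousAt_const).sub continuousAt_const).continuousWithinAt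
    · intro w _
      exact ⟨2 * k, 1 - k ^ 2, -2 - ε, by ring, fun w' _ => by
        show _ ≤ 2 * k * X w' + (1 - k ^ 2) * Y w' - 2 - ε
        linarith⟩
  · intro w hw
    show ((2 * k * X w + (1 - k ^ 2) * Y w - 2 - ε : ℝ) : EReal) ≤ ((uu w : ℝ) : EReal)
    have hrho := rho_gt hw
    have hwO := hw.1
    have hy := Y_pos hwO
    have hr0 := rr_pos hwO
    have hr2 := rr_lt hwO
    have goal : 2 * k * X w + (1 - k ^ 2) * Y w - 2 - ε ≤ uu w := by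
      rcases le_or_gt δ (Y w) with h | h
      · have e1 := rho_eq hwO
        have e2 : (2 - rr w) * δ ≤ ε / 2 * δ := by
          have : (2 - rr w) * δ ≤ (2 - rr w) * Y w := mul_le_mul_of_nonneg_left h (by linarith)
          have e3 : (2 - rr w) * Y w < η := by rw [e1] at hrho; linarith
          rw [hη] at e3; linarith
        have e4 : 2 - rr w ≤ ε / 2 := le_of_mul_le_mul_right e2 hδ0
        have e5 := rr_tan k hwO
        have e6 : 2 * (rr w - 2) ≤ uu w := by unfold uu; nlinarith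
        linarith
      · have e1 : X w ^ 2 < s ^ 2 := by
          have h2 := hwO.2
          unfold rho at h2
          have : s ^ 2 = 2 * δ := by rw [hδ]; ring
          nlinarith [sq_nonneg (Y w)]
        have e2 : |X w| < s := abs_lt_of_sq_lt_sq e1 hs0.le
        have e3 : Y w ≤ s := by
          have : δ ≤ s := by rw [hδ]; nlinarith
          linarith
        have e4 : 2 * k * X w ≤ 2 * |k| * s := by
          calc 2 * k * X w ≤ |2 * k * X w| := le_abs_self _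
            _ = 2 * |k| * |X w| := by rw [abs_mul, abs_mul]; simp
            _ ≤ 2 * |k| * s := mul_le_mul_of_nonneg_left e2.le (by positivity)
        have e5 : (1 - k ^ 2) * Y w ≤ |1 - k ^ 2| * s := by
          calc (1 - k ^ 2) * Y w ≤ |1 - k ^ 2| * Y w :=
                mul_le_mul_of_nonneg_right (le_abs_self _) hy.le
            _ ≤ |1 - k ^ 2| * s := mul_le_mul_of_nonneg_left e3 (abs_nonneg _)
        have e6 : -2 ≤ uu w := by unfold uu; nlinarith [sq_nonneg (rr w)]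
        have e7 : s * m = 2 * |k| * s + |1 - k ^ 2| * s + s := by rw [hm]; ring
        linarith
    exact_mod_cast goal

theorem tilde_ge {z : Fin 2 → ℂ} (hz : z ∈ Om) :
    ((rr z - 2 : ℝ) : EReal) ≤ tilde Om (fun z => (uu z : EReal)) z := by
  by_contra hc
  push Not at hc
  obtain ⟨c, h1, h2⟩ := EReal.exists_between_coe_real hc
  have h2' : c < rr z - 2 := by exact_mod_cast h2
  have h3 := tilde_ge_aux (X z / Y z) (rr z - 2 - c) (by linarith) hz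
  have h4 : 2 * (X z / Y z) * X z + (1 - (X z / Y z) ^ 2) * Y z - 2 - (rr z - 2 - c) = c := by
    rw [rr_tan_eq hz]; ring
  rw [h4] at h3
  exact absurd h1 (not_lt.2 h3)

/-! ### the upper bound -/

lemma ann_gen {ψ : (Fin 2 → ℂ) → EReal} (hs : IsPSH Om ψ) (p e : Fin 2 → ℂ)
    (pt : ℂ → (Fin 2 → ℂ)) (hpt : ∀ ζ, p + ζ • e = pt ζ) {a b α β : ℝ} (hab : a < b)
    (hmem : ∀ ζ : ℂ, ζ ≠ 0 → a ≤ Real.log ‖ζ‖ → Real.log ‖ζ‖ ≤ b → pt ζ ∈ Om)
    (h1 : ∀ ζ : ℂ, ζ ≠ 0 → Real.log ‖ζ‖ = a → ψ (pt ζ) ≤ ((α : ℝ) : EReal))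
    (h2 : ∀ ζ : ℂ, ζ ≠ 0 → Real.log ‖ζ‖ = b → ψ (pt ζ) ≤ ((β : ℝ) : EReal)) :
    ∀ ζ : ℂ, ζ ≠ 0 → a ≤ Real.log ‖ζ‖ → Real.log ‖ζ‖ ≤ b → ψ (pt ζ) ≤
      ((α + (β - α) / (b - a) * (Real.log ‖ζ‖ - a) : ℝ) : EReal) := by
  intro ζ hζ ha hb
  have nz : ∀ ξ : ℂ, Real.exp a ≤ ‖ξ‖ → ξ ≠ 0 := fun ξ h =>
    norm_pos_iff.1 ((Real.exp_pos a).trans_le h)
  have key := annulus hs p e (a := Real.exp a) (b := Real.exp b) (α := α) (β := β)
    (Real.exp_pos a) (Real.exp_lt_exp.2 hab)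
    (fun ξ h3 h4 => by
      have h0 := nz ξ h3
      rw [hpt]
      exact hmem ξ h0 ((Real.le_log_iff_exp_le (norm_pos_iff.2 h0)).2 h3)
        ((Real.log_le_iff_le_exp (norm_pos_iff.2 h0)).2 h4))
    (fun ξ h3 => by
      rw [hpt]
      exact h1 ξ (nz ξ h3.ge) (by rw [h3, Real.log_exp]))
    (fun ξ h3 => by
      rw [hpt]
      exact h2 ξ (nz ξ (by rw [h3]; exact (Real.exp_lt_exp.2 hab).le)) (by rw [h3, Real.log_exp]))
    ζ ((Real.le_log_iff_exp_le (norm_pos_iff.2 hζ)).1 ha)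
    ((Real.log_le_iff_le_exp (norm_pos_iff.2 hζ)).1 hb)
  rw [hpt, Real.log_exp, Real.log_exp] at key
  exact key

lemma ptX (c ζ : ℂ) : (![0, c] : Fin 2 → ℂ) + ζ • ![1, 0] = ![ζ, c] := by
  funext i; fin_cases i <;> simp

lemma ptY (c ζ : ℂ) : (![c, 0] : Fin 2 → ℂ) + ζ • ![0, 1] = ![c, ζ] := by
  funext i; fin_cases i <;> simp

theorem upper {φ ψ : (Fin 2 → ℂ) → EReal} {K : Set (Fin 2 → ℂ)} (hK : IsCompact K)
    (hKO : K ⊆ Om) (hφ0 : ∀ z ∈ Om, φ z ≤ 0)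
    (hφ : ∀ z ∈ Om, rr z = 1 → φ z ≤ ((-(1 / 2) : ℝ) : EReal))
    (hψ : IsPSH Om ψ) (hle : ∀ w ∈ Om \ K, ψ w ≤ φ w) {w : Fin 2 → ℂ} (hw : w ∈ Om)
    (hx : |X w| < 1 / 4) (hy : |Y w - 1| < 1 / 2) : ψ w ≤ ((-(1 / 20) : ℝ) : EReal) := by
  -- the compact set stays away from the boundary
  obtain ⟨η, hη0, hη1, hη⟩ : ∃ η : ℝ, 0 < η ∧ η < 1 / 4 ∧ ∀ z ∈ K, rho z ≤ -η := by
    rcases K.eq_empty_or_nonempty with h | h
    · exact ⟨1 / 8, by norm_num, by norm_num, by simp [h]⟩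
    · obtain ⟨z, hz, hm⟩ := hK.exists_isMaxOn h
        (f := rho) (fun z hz => (rho_cont (hKO hz).1).continuousWithinAt)
      have h1 := (hKO hz).2
      refine ⟨min (-(rho z)) (1 / 8), lt_min (by linarith) (by norm_num),
        (min_le_right _ _).trans_lt (by norm_num), fun z' hz' => ?_⟩
      have h2 : rho z' ≤ rho z := isMaxOn_iff.1 hm z' hz'
      have h3 := min_le_left (-(rho z)) (1 / 8)
      linarith
  have hout : ∀ z ∈ Om, -η < rho z → ψ z ≤ φ z := fun z hz h =>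
    hle z ⟨hz, fun hk => absurd (hη z hk) (not_le.2 h)⟩
  have hout0 : ∀ z ∈ Om, -η < rho z → ψ z ≤ ((0 : ℝ) : EReal) := fun z hz h => by
    have := (hout z hz h).trans (hφ0 z hz)
    exact_mod_cast this
  -- first annulus
  set y' : ℝ := η / 4 with hy'
  have hy'0 : 0 < y' := by positivity
  have hy'1 : y' < 1 / 16 := by rw [hy']; linarith
  set X' : ℝ := Real.sqrt (y' - y' ^ 2) with hX'
  have hyy : 0 < y' - y' ^ 2 := by nlinarith
  have hX'0 : 0 < X' := Real.sqrt_pos.2 hyy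
  have hX'2 : X' ^ 2 = y' - y' ^ 2 := Real.sq_sqrt hyy.le
  have stepA : ∀ c ζ : ℂ, c ≠ 0 → ζ ≠ 0 → Real.log ‖c‖ = y' → Real.log ‖ζ‖ = 0 →
      ψ ![ζ, c] ≤ ((-(1 / 2) : ℝ) : EReal) := by
    intro c ζ hc hζ hlc hlζ
    have hrr : ∀ ξ : ℂ, ξ ≠ 0 → Real.log ‖ξ‖ ^ 2 = y' - y' ^ 2 →
        ψ ![ξ, c] ≤ ((-(1 / 2) : ℝ) : EReal) := by
      intro ξ hξ h
      have hm : (![ξ, c] : Fin 2 → ℂ) ∈ Om := by
        rw [mem_Om_iff, hlc, h]
        exact ⟨⟨hξ, hc⟩, by linarith⟩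
      have hr : rho ![ξ, c] = -y' := by
        show Real.log ‖ξ‖ ^ 2 + Real.log ‖c‖ ^ 2 - 2 * Real.log ‖c‖ = -y'
        rw [hlc, h]; ring
      have hr1 : rr ![ξ, c] = 1 := by
        show Real.log ‖ξ‖ ^ 2 / Real.log ‖c‖ + Real.log ‖c‖ = 1
        rw [hlc, h]; field_simp; ring
      exact (hout _ hm (by rw [hr, hy']; linarith)).trans (hφ _ hm hr1)
    have := ann_gen hψ ![0, c] ![1, 0] (fun ζ => ![ζ, c]) (ptX c) (a := -X') (b := X')
      (α := -(1 / 2)) (β := -(1 / 2)) (by linarith)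
      (fun ξ hξ h3 h4 => by
        rw [mem_Om_iff, hlc]
        refine ⟨⟨hξ, hc⟩, ?_⟩
        have : Real.log ‖ξ‖ ^ 2 ≤ X' ^ 2 := sq_le_sq' h3 h4
        rw [hX'2] at this
        linarith)
      (fun ξ hξ h3 => hrr ξ hξ (by rw [h3, neg_sq, hX'2]))
      (fun ξ hξ h3 => hrr ξ hξ (by rw [h3, hX'2]))
      ζ hζ (by rw [hlζ]; linarith) (by rw [hlζ]; linarith)
    refine this.trans (EReal.coe_le_coe_iff.2 ?_)
    simp
  -- second annulus
  have stepB : ∀ ζ c : ℂ, ζ ≠ 0 → c ≠ 0 → Real.log ‖ζ‖ = 0 → 1 / 2 < Real.log ‖c‖ →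
      Real.log ‖c‖ < 3 / 2 → ψ ![ζ, c] ≤ ((-(1 / 10) : ℝ) : EReal) := by
    intro ζ c hζ hc hlζ hc1 hc2
    have := ann_gen hψ ![ζ, 0] ![0, 1] (fun ξ => ![ζ, ξ]) (ptY ζ) (a := y') (b := 2 - y')
      (α := -(1 / 2)) (β := 0) (by linarith)
      (fun ξ hξ h3 h4 => by
        rw [mem_Om_iff, hlζ]
        refine ⟨⟨hζ, hξ⟩, ?_⟩
        nlinarith)
      (fun ξ hξ h3 => stepA ξ ζ hξ hζ h3 hlζ)
      (fun ξ hξ h3 => by
        have hm : (![ζ, ξ] : Fin 2 → ℂ) ∈ Om := by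
          rw [mem_Om_iff, hlζ, h3]
          refine ⟨⟨hζ, hξ⟩, ?_⟩
          nlinarith
        apply hout0 _ hm
        show -η < Real.log ‖ζ‖ ^ 2 + Real.log ‖ξ‖ ^ 2 - 2 * Real.log ‖ξ‖
        rw [hlζ, h3]
        have : η = 4 * y' := by rw [hy']; ring
        rw [this]; nlinarith)
      c hc (by linarith) (by linarith)
    refine this.trans (EReal.coe_le_coe_iff.2 ?_)
    have hd : 0 < 2 - y' - y' := by linarith
    have e1 : (0 - -(1 / 2)) / (2 - y' - y') * (Real.log ‖c‖ - y') =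
        (1 / 2 * (Real.log ‖c‖ - y')) / (2 - y' - y') := by ring
    rw [e1]
    have e2 : (1 / 2 * (Real.log ‖c‖ - y')) / (2 - y' - y') ≤ 4 / 10 := by
      rw [div_le_iff₀ hd]; nlinarith
    linarith
  -- third annulus
  have hy12 := abs_lt.1 hy
  have hx12 := abs_lt.1 hx
  set y := Y w with hyd
  set x := X w with hxd
  have hw' : w = ![w 0, w 1] := by funext i; fin_cases i <;> rfl
  have hlw1 : Real.log ‖w 1‖ = y := rfl
  have hlw0 : Real.log ‖w 0‖ = x := rfl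
  set X2 : ℝ := Real.sqrt (2 * y - y ^ 2 - η / 2) with hX2
  have hpos : 5 / 8 < 2 * y - y ^ 2 - η / 2 := by nlinarith
  have hX2sq : X2 ^ 2 = 2 * y - y ^ 2 - η / 2 := Real.sq_sqrt (by linarith)
  have hX20 : 0 < X2 := Real.sqrt_pos.2 (by linarith)
  have hX2h : 1 / 2 < X2 := by nlinarith
  have hmem : ∀ ξ : ℂ, ξ ≠ 0 → Real.log ‖ξ‖ ^ 2 ≤ X2 ^ 2 → (![ξ, w 1] : Fin 2 → ℂ) ∈ Om := by
    intro ξ hξ h
    rw [mem_Om_iff, hlw1]
    refine ⟨⟨hξ, hw.1.2⟩, ?_⟩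
    rw [hX2sq] at h
    linarith
  have hbd : ∀ ξ : ℂ, ξ ≠ 0 → Real.log ‖ξ‖ ^ 2 = X2 ^ 2 →
      ψ ![ξ, w 1] ≤ ((0 : ℝ) : EReal) := by
    intro ξ hξ h
    apply hout0 _ (hmem ξ hξ h.le)
    show -η < Real.log ‖ξ‖ ^ 2 + Real.log ‖w 1‖ ^ 2 - 2 * Real.log ‖w 1‖
    rw [h, hlw1, hX2sq]
    linarith
  have hmid : ∀ ξ : ℂ, ξ ≠ 0 → Real.log ‖ξ‖ = 0 →
      ψ ![ξ, w 1] ≤ ((-(1 / 10) : ℝ) : EReal) := fun ξ hξ h =>
    stepB ξ (w 1) hξ hw.1.2 h (by rw [hlw1]; linarith) (by rw [hlw1]; linarith)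
  rw [hw']
  rcases le_or_gt 0 x with h0 | h0
  · have := ann_gen hψ ![0, w 1] ![1, 0] (fun ζ => ![ζ, w 1]) (ptX (w 1)) (a := 0) (b := X2)
      (α := -(1 / 10)) (β := 0) hX20
      (fun ξ hξ h3 h4 => hmem ξ hξ (pow_le_pow_left₀ h3 h4 2))
      (fun ξ hξ h3 => hmid ξ hξ h3)
      (fun ξ hξ h3 => hbd ξ hξ (by rw [h3]))
      (w 0) hw.1.1 (by rw [hlw0]; exact h0) (by rw [hlw0]; linarith)
    refine this.trans (EReal.coe_le_coe_iff.2 ?_)
    rw [hlw0]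
    have e1 : (0 - -(1 / 10)) / (X2 - 0) * (x - 0) = (1 / 10 * x) / X2 := by ring
    rw [e1]
    have e2 : (1 / 10 * x) / X2 ≤ 1 / 20 := by
      rw [div_le_iff₀ hX20]; nlinarith
    linarith
  · have := ann_gen hψ ![0, w 1] ![1, 0] (fun ζ => ![ζ, w 1]) (ptX (w 1)) (a := -X2) (b := 0)
      (α := 0) (β := -(1 / 10)) (by linarith)
      (fun ξ hξ h3 h4 => hmem ξ hξ (by nlinarith))
      (fun ξ hξ h3 => hbd ξ hξ (by rw [h3, neg_sq]))
      (fun ξ hξ h3 => hmid ξ hξ h3)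
      (w 0) hw.1.1 (by rw [hlw0]; linarith) (by rw [hlw0]; linarith)
    refine this.trans (EReal.coe_le_coe_iff.2 ?_)
    rw [hlw0]
    have e1 : 0 + (-(1 / 10) - 0) / (0 - -X2) * (x - -X2) = -(1 / 10) + (-(1 / 10) * x) / X2 := by
      have hne : X2 ≠ 0 := hX20.ne'
      have e0 : (0 : ℝ) - -X2 = X2 := by ring
      rw [e0]
      field_simp
      ring
    rw [e1]
    have e2 : (-(1 / 10) * x) / X2 ≤ 1 / 20 := by
      rw [div_le_iff₀ hX20]; nlinarith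
    linarith

theorem no_phi : ¬ ∃ φ : (Fin 2 → ℂ) → EReal, IsNegPSH Om φ ∧ (∀ z ∈ Om, tilde Om φ z = 0) ∧
    ∀ z ∈ Om, φ z + tilde Om (fun z => (uu z : EReal)) z ≤ (uu z : EReal) := by
  rintro ⟨φ, hN, hN2, hsum⟩
  have hφ0 : ∀ z ∈ Om, φ z ≤ 0 := hN.2
  have hφ : ∀ z ∈ Om, rr z = 1 → φ z ≤ ((-(1 / 2) : ℝ) : EReal) := by
    intro z hz hr
    have h1 := hsum z hz
    have h2 := tilde_ge hz
    have h3 : φ z + ((rr z - 2 : ℝ) : EReal) ≤ ((uu z : ℝ) : EReal) :=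
      (add_le_add le_rfl h2).trans h1
    have h4 : uu z = -(3 / 2) := by unfold uu; rw [hr]; norm_num
    rw [h4, hr] at h3
    rcases eq_or_ne (φ z) ⊥ with hb | hb
    · rw [hb]; exact bot_le
    · have ht : φ z ≠ ⊤ := fun ht => by
        have := hφ0 z hz
        rw [ht] at this
        exact absurd this (by simp)
      lift φ z to ℝ using ⟨ht, hb⟩ with t
      have h5 : t + (1 - 2) ≤ -(3 / 2) := by exact_mod_cast h3
      have h6 : t ≤ -(1 / 2) := by linarith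
      exact_mod_cast h6
  have hzero := hN2 zs zs_mem
  have hup : tilde Om φ zs ≤ ((-(1 / 20) : ℝ) : EReal) := by
    unfold tilde
    have hs : {w : Fin 2 → ℂ | |X w| < 1 / 4 ∧ |Y w - 1| < 1 / 2} ∈ 𝓝 zs := by
      have c0 : ContinuousAt (fun w => |X w|) zs := (X_cont zs_mem.1).abs
      have c1 : ContinuousAt (fun w => |Y w - 1|) zs :=
        ((Y_cont zs_mem.1).sub continuousAt_const).abs
      have h0 : |X zs| < 1 / 4 := by rw [zs_X]; norm_num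
      have h1 : |Y zs - 1| < 1 / 2 := by rw [zs_Y]; norm_num
      filter_upwards [c0.eventually (Iio_mem_nhds h0), c1.eventually (Iio_mem_nhds h1)]
        with w h2 h3
      exact ⟨h2, h3⟩
    refine (iInf₂_le _ hs).trans ?_
    refine iSup₂_le fun w hw => iSup₂_le fun K hK => ?_
    unfold envelope
    refine iSup₂_le fun ψ hψ => ?_
    exact upper hK.1 hK.2 hφ0 hφ hψ.1 hψ.2 hw.2 hw.1.1 hw.1.2
  rw [hzero] at hup
  have : (0 : ℝ) ≤ -(1 / 20) := by exact_mod_cast hup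
  linarith

end Pool.Agent.H914R3.CG
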